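import Pool.Agent.Helper18.CU2

set_option autoImplicit false

namespace Pool.Agent.Results.MP_2fc951_gt.NoUniversal

open Set Filter Topology

/-- Bounded geometry: for every `r > 0` there is `N` such that every closed ball of radius `r`
is finite with at most `N` points. -/
def BoundedGeometry (X : Type) [MetricSpace X] : Prop :=
  ∀ r : ℝ, 0 < r → ∃ N : ℕ, ∀ x : X,
    (Metric.closedBall x r).Finite ∧ (Metric.closedBall x r).ncard ≤ N

/-- `X` coarsely contains `Y`: there is a coarse embedding `f : Y → X`, controlled by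
non-decreasing functions `lo, up : [0,∞) → [0,∞)` with `lo t → ∞`. -/
def CoarselyContains (X Y : Type) [MetricSpace X] [MetricSpace Y] : Prop :=
  ∃ (f : Y → X) (lo up : ℝ → ℝ), MonotoneOn lo (Ici 0) ∧ MonotoneOn up (Ici 0) ∧
    (∀ t, 0 ≤ t → 0 ≤ lo t ∧ 0 ≤ up t) ∧ Tendsto lo atTop atTop ∧
    ∀ y y' : Y, lo (dist y y') ≤ dist (f y) (f y') ∧ dist (f y) (f y') ≤ up (dist y y')

/-- No metric space of bounded geometry coarsely contains all metric spaces of bounded
geometry. -/
theorem result : ∀ (X : Type) [MetricSpace X], BoundedGeometry X →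
    ∃ (Y : Type) (_ : MetricSpace Y), BoundedGeometry Y ∧ ¬ CoarselyContains X Y := by
  intro X _ hX
  obtain ⟨D, hD⟩ := Pool.Agent.Helper18.CU.exists_dat hX
  exact ⟨Pool.Agent.Helper18.CU.YY D, inferInstance, Pool.Agent.Helper18.CU.YY_bg D, hD⟩

end Pool.Agent.Results.MP_2fc951_gt.NoUniversal
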