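import Pool.Agent.Helper18.CU3

set_option autoImplicit false

namespace Pool.Agent.Results.MP_2fc951_gt.NoUniversalPropertyA

open Set Filter Topology

/-- Bounded geometry: for every `r > 0` there is `N` such that every closed ball of radius `r`
is finite with at most `N` points. -/
def BoundedGeometry (X : Type) [MetricSpace X] : Prop :=
  ∀ r : ℝ, 0 < r → ∃ N : ℕ, ∀ x : X,
    (Metric.closedBall x r).Finite ∧ (Metric.closedBall x r).ncard ≤ N

/-- `X` coarsely contains `Y`: there is a coarse embedding `f : Y → X`, controlled by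
non-decreasing functions `lo, up : [0,∞) → [0,∞)` with `lo t → ∞`. -/
def CoarselyContains (X Y : Type) [MetricSpace X] [MetricSpace Y] : Prop :=
  ∃ (f : Y → X) (lo up : ℝ → ℝ), MonotoneOn lo (Ici 0) ∧ MonotoneOn up (Ici 0) ∧
    (∀ t, 0 ≤ t → 0 ≤ lo t ∧ 0 ≤ up t) ∧ Tendsto lo atTop atTop ∧
    ∀ y y' : Y, lo (dist y y') ≤ dist (f y) (f y') ∧ dist (f y) (f y') ≤ up (dist y y')

/-- Property A of Yu: for all `R, ε > 0` there are `S > 0` and `ξ : X → ℓ¹(X)` with
`‖ξ x‖ = 1`, `ξ x` supported in the ball of radius `S` about `x`, and `‖ξ x - ξ y‖ ≤ ε`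
whenever `dist x y ≤ R`. -/
def PropertyA (X : Type) [MetricSpace X] : Prop :=
  ∀ R ε : ℝ, 0 < R → 0 < ε → ∃ S : ℝ, 0 < S ∧ ∃ ξ : X → lp (fun _ : X => ℝ) 1,
    (∀ x, ‖ξ x‖ = 1) ∧ (∀ x z, ξ x z ≠ 0 → dist x z ≤ S) ∧ ∀ x y, dist x y ≤ R → ‖ξ x - ξ y‖ ≤ ε

/-- For every metric space of bounded geometry there is a metric space of bounded geometry with
Property A which does not coarsely embed into it.  In particular there is no bounded geometry
space containing all bounded geometry spaces (first clause: Q1), and no bounded geometry space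
with Property A containing all bounded geometry spaces with Property A (second clause: Q2). -/
theorem result :
    (¬ ∃ (X : Type) (_ : MetricSpace X), BoundedGeometry X ∧
      ∀ (Y : Type) [MetricSpace Y], BoundedGeometry Y → CoarselyContains X Y) ∧
    (¬ ∃ (X : Type) (_ : MetricSpace X), BoundedGeometry X ∧ PropertyA X ∧
      ∀ (Y : Type) [MetricSpace Y], BoundedGeometry Y → PropertyA Y → CoarselyContains X Y) ∧
    (∀ (X : Type) [MetricSpace X], BoundedGeometry X →
      ∃ (Y : Type) (_ : MetricSpace Y), BoundedGeometry Y ∧ PropertyA Y ∧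
        ¬ CoarselyContains X Y) := by
  have main : ∀ (X : Type) [MetricSpace X], BoundedGeometry X →
      ∃ (Y : Type) (_ : MetricSpace Y), BoundedGeometry Y ∧ PropertyA Y ∧
        ¬ CoarselyContains X Y := by
    intro X _ hX
    obtain ⟨D, hD⟩ := Pool.Agent.Helper18.CU.exists_dat hX
    exact ⟨Pool.Agent.Helper18.CU.YY D, inferInstance, Pool.Agent.Helper18.CU.YY_bg D,
      Pool.Agent.Helper18.CU.YY_A D, hD⟩
  refine ⟨?_, ?_, main⟩
  · rintro ⟨X, _, hX, h⟩
    obtain ⟨Y, _, h1, h2, h3⟩ := main X hX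
    exact h3 (h Y h1)
  · rintro ⟨X, _, hX, _, h⟩
    obtain ⟨Y, _, h1, h2, h3⟩ := main X hX
    exact h3 (h Y h1 h2)

end Pool.Agent.Results.MP_2fc951_gt.NoUniversalPropertyA
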